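import Pool.Agent.N549.CG.Stm

/-!
# Binary codes as a hard-core gas (helper549): few near pairs in a subset of a Hamming ball

Written by helper615.
-/

set_option autoImplicit false

namespace Pool.Agent.N615.CG

open Finset
open Pool.Agent.N549.CG (W V)

lemma V_succ (m k : ℕ) : V (m + 1) k ≤ 2 * V m k := by
  unfold V
  rw [Finset.sum_range_succ', Finset.mul_sum, Finset.sum_range_succ' _ k]
  have h : ∀ j, (m + 1).choose (j + 1) = m.choose j + m.choose (j + 1) := fun j =>
    Nat.choose_succ_succ m j
  simp only [h, Nat.choose_zero_right]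
  rw [Finset.sum_add_distrib]
  have h2 : ∑ j ∈ range k, m.choose j ≤ (∑ j ∈ range k, m.choose (j + 1)) + 1 := by
    have h3 : ∑ j ∈ range (k + 1), m.choose j = (∑ j ∈ range k, m.choose (j + 1)) + 1 := by
      rw [Finset.sum_range_succ', Nat.choose_zero_right]
    rw [← h3]
    exact Finset.sum_le_sum_of_subset (Finset.range_mono (Nat.le_succ k))
  have h4 : ∑ j ∈ range k, 2 * m.choose (j + 1) = 2 * ∑ j ∈ range k, m.choose (j + 1) :=
    (Finset.mul_sum _ _ _).symm
  omega

lemma V_add (m t k : ℕ) : V (m + t) k ≤ 2 ^ t * V m k := by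
  induction t with
  | zero => simp
  | succ t ih =>
    have h := V_succ (m + t) k
    rw [← add_assoc, pow_succ]
    calc V (m + t + 1) k ≤ 2 * V (m + t) k := h
      _ ≤ 2 * (2 ^ t * V m k) := Nat.mul_le_mul_left 2 ih
      _ = 2 ^ t * 2 * V m k := by ring

/-- The support of the difference. -/
def Df {n : ℕ} (v y : W n) : Finset (Fin n) := univ.filter fun i => v i ≠ y i

lemma Df_card {n : ℕ} (v y : W n) : (Df v y).card = hammingDist v y := rfl

lemma Df_inj {n : ℕ} (v : W n) {y z : W n} (h : Df v y = Df v z) : y = z := by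
  funext i
  have h1 : i ∈ Df v y ↔ i ∈ Df v z := by rw [h]
  unfold Df at h1
  simp only [mem_filter, mem_univ, true_and] at h1
  revert h1
  cases v i <;> cases y i <;> cases z i <;> simp

lemma Df_dist {n : ℕ} (v u y : W n) :
    hammingDist u y = (Df v u \ Df v y).card + (Df v y \ Df v u).card := by
  rw [← card_union_of_disjoint (disjoint_sdiff_sdiff), ← Df_card]
  congr 1
  ext i
  unfold Df
  simp only [mem_filter, mem_univ, true_and, mem_union, mem_sdiff]
  cases v i <;> cases y i <;> cases u i <;> simp

lemma small_card {n : ℕ} (A : Finset (Fin n)) (k : ℕ) :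
    (A.powerset.filter fun B => B.card ≤ k).card ≤ V A.card k := by
  have h : (A.powerset.filter fun B => B.card ≤ k) ⊆
      (range (k + 1)).biUnion fun j => A.powersetCard j := by
    intro B hB
    rw [mem_filter, mem_powerset] at hB
    rw [mem_biUnion]
    exact ⟨B.card, mem_range.2 (Nat.lt_succ_of_le hB.2), mem_powersetCard.2 ⟨hB.1, rfl⟩⟩
  refine (card_le_card h).trans (card_biUnion_le.trans ?_)
  unfold V
  exact Finset.sum_le_sum fun j _ => (card_powersetCard j A).le

/-- The words of smaller weight near `u`. -/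
lemma near {n D : ℕ} (hD : D ≤ n) (v u : W n) (hu : hammingDist v u ≤ D) :
    (univ.filter fun y : W n => hammingDist u y ≤ D ∧ hammingDist v y ≤ hammingDist v u).card
      ≤ 2 ^ D * V (n - D) (D / 2) := by
  obtain ⟨w, hw⟩ : ∃ w, w = hammingDist v u := ⟨_, rfl⟩
  rw [← hw] at hu ⊢
  obtain ⟨U, hU⟩ : ∃ U, U = Df v u := ⟨_, rfl⟩
  have hUc : U.card = w := by rw [hU, hw, Df_card]
  have hUcc : Uᶜ.card = n - w := by rw [card_compl, hUc, Fintype.card_fin]
  have h1 : (univ.filter fun y : W n => hammingDist u y ≤ D ∧ hammingDist v y ≤ w).card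
      ≤ (U.powerset ×ˢ (Uᶜ.powerset.filter fun B => B.card ≤ D / 2)).card := by
    refine card_le_card_of_injOn (fun y => (Df v y ∩ U, Df v y \ U)) ?_ ?_
    · intro y hy
      rw [mem_coe, mem_filter] at hy
      obtain ⟨-, h2, h3⟩ := hy
      rw [mem_coe, mem_product, mem_powerset, mem_filter, mem_powerset]
      refine ⟨inter_subset_right, ?_, ?_⟩
      · intro i hi
        rw [mem_sdiff] at hi
        rw [mem_compl]
        exact hi.2
      · rw [Df_dist v, ← hU] at h2
        rw [← Df_card] at h3
        have h4 : (Df v y ∩ U).card + (Df v y \ U).card = (Df v y).card :=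
          card_inter_add_card_sdiff _ _
        have h5 : (U ∩ Df v y).card + (U \ Df v y).card = U.card :=
          card_inter_add_card_sdiff _ _
        rw [inter_comm] at h5
        simp only
        omega
    · intro y _ z _ hyz
      have h2 := Prod.ext_iff.1 hyz
      simp only at h2
      apply Df_inj v
      rw [← sdiff_union_inter (Df v y) U, ← sdiff_union_inter (Df v z) U, h2.1, h2.2]
  refine h1.trans ?_
  rw [card_product, card_powerset, hUc]
  have h2 := small_card Uᶜ (D / 2)
  rw [hUcc] at h2
  have h3 := V_add (n - D) (D - w) (D / 2)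
  have e : n - D + (D - w) = n - w := by omega
  rw [e] at h3
  calc 2 ^ w * (Uᶜ.powerset.filter fun B => B.card ≤ D / 2).card
      ≤ 2 ^ w * (2 ^ (D - w) * V (n - D) (D / 2)) := Nat.mul_le_mul_left _ (h2.trans h3)
    _ = 2 ^ D * V (n - D) (D / 2) := by
        rw [← mul_assoc, ← pow_add]
        congr 2
        omega

theorem locc0 (n D : ℕ) (hD : D ≤ n) (v : W n) (T : Finset (W n))
    (hT : ∀ y ∈ T, hammingDist v y ≤ D) :
    ∑ u ∈ T, (T.filter fun y => hammingDist u y ≤ D).card
      ≤ 2 ^ (D + 1) * V (n - D) (D / 2) * T.card := by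
  have h1 : ∀ u ∈ T, (T.filter fun y => hammingDist u y ≤ D).card ≤
      (T.filter fun y => hammingDist u y ≤ D ∧ hammingDist v y ≤ hammingDist v u).card +
      (T.filter fun y => hammingDist u y ≤ D ∧ hammingDist v u ≤ hammingDist v y).card := by
    intro u _
    rw [← card_union_add_card_inter]
    refine le_trans (card_le_card ?_) (Nat.le_add_right _ _)
    intro y hy
    rw [mem_filter] at hy
    rw [mem_union, mem_filter, mem_filter]
    rcases le_total (hammingDist v y) (hammingDist v u) with h | h
    · exact Or.inl ⟨hy.1, hy.2, h⟩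
    · exact Or.inr ⟨hy.1, hy.2, h⟩
  have h2 : ∑ u ∈ T, (T.filter fun y => hammingDist u y ≤ D ∧ hammingDist v u ≤ hammingDist v y).card
      = ∑ u ∈ T, (T.filter fun y => hammingDist u y ≤ D ∧ hammingDist v y ≤ hammingDist v u).card := by
    simp only [card_filter]
    rw [Finset.sum_comm]
    refine Finset.sum_congr rfl fun y _ => Finset.sum_congr rfl fun u _ => ?_
    rw [hammingDist_comm u y]
  have h3 : ∀ u ∈ T, (T.filter fun y => hammingDist u y ≤ D ∧ hammingDist v y ≤ hammingDist v u).card
      ≤ 2 ^ D * V (n - D) (D / 2) := by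
    intro u hu
    refine le_trans (card_le_card ?_) (near hD v u (hT u hu))
    exact filter_subset_filter _ (subset_univ _)
  calc ∑ u ∈ T, (T.filter fun y => hammingDist u y ≤ D).card
      ≤ ∑ u ∈ T, ((T.filter fun y => hammingDist u y ≤ D ∧
        hammingDist v y ≤ hammingDist v u).card +
      (T.filter fun y => hammingDist u y ≤ D ∧ hammingDist v u ≤ hammingDist v y).card) :=
        Finset.sum_le_sum h1
    _ = 2 * ∑ u ∈ T, (T.filter fun y => hammingDist u y ≤ D ∧
        hammingDist v y ≤ hammingDist v u).card := by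
        rw [Finset.sum_add_distrib, h2]
        ring
    _ ≤ 2 * ∑ _u ∈ T, 2 ^ D * V (n - D) (D / 2) :=
        Nat.mul_le_mul_left _ (Finset.sum_le_sum h3)
    _ = 2 ^ (D + 1) * V (n - D) (D / 2) * T.card := by
        rw [Finset.sum_const, smul_eq_mul, pow_succ]
        ring

theorem locc : Pool.Agent.N549.CG.S_LOCC := fun n D hD v T hT => locc0 n D hD v T hT

end Pool.Agent.N615.CG
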